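import Pool.Agent.H23.CM4.Targets

/-!
# MOT: the second moment with partial sums of any length
-/

set_option autoImplicit false

open NumberField MeasureTheory Set Filter Complex
open scoped nonZeroDivisors Real

namespace Pool.Agent.H58.CM4

open Pool.Agent.H23.CM4
open Pool.Agent.H31.CN (IsLf)
open Pool.Agent.H61.FM (CC pv Sp lm Nn)
open Pool.Agent.H65.CM4 (gG Kc Sq nm dg)
open Pool.Agent.H25.HK (FI Pri du)

/-- the weight is at most one -/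
theorem wB_le_one (B : ℕ) (D x : ℝ) (hx : 0 ≤ x) : wB B D x ≤ 1 := by
  unfold wB
  refine inv_le_one_of_one_le₀ (one_le_pow₀ ?_)
  have : 0 ≤ x / Real.sqrt D := div_nonneg hx (Real.sqrt_nonneg _)
  linarith

theorem wB_nonneg (B : ℕ) (D x : ℝ) (hx : 0 ≤ x) : 0 ≤ wB B D x := by
  unfold wB
  have : 0 ≤ x / Real.sqrt D := div_nonneg hx (Real.sqrt_nonneg _)
  positivity

/-- the weight beats the powers -/
theorem wB_small (δ X x : ℝ) (hδ : 0 < δ) (hδ1 : δ ≤ 1) (hX : 1 ≤ X) (hx : 1 ≤ x)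
    (hxX : X ^ ((1 + δ) / 2) < x) (B : ℕ) (hB : 8 / δ ≤ B) : wB B X x * x ^ 4 ≤ 1 := by
  have hx0 : 0 < x := by linarith
  have hX0 : 0 < X := by linarith
  have h1 : Real.sqrt X ≤ x ^ (1 / (1 + δ)) := by
    have e1 : Real.sqrt X = (X ^ ((1 + δ) / 2)) ^ (1 / (1 + δ)) := by
      rw [← Real.rpow_mul hX0.le, Real.sqrt_eq_rpow]
      congr 1
      field_simp
    rw [e1]
    exact Real.rpow_le_rpow (Real.rpow_nonneg hX0.le _) hxX.le (by positivity)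
  have hs0 : 0 < Real.sqrt X := Real.sqrt_pos.mpr hX0
  have h3 : x ^ (δ / 2) ≤ x / Real.sqrt X := by
    rw [le_div_iff₀ hs0]
    calc x ^ (δ / 2) * Real.sqrt X ≤ x ^ (δ / 2) * x ^ (1 / (1 + δ)) := by gcongr
      _ = x ^ (δ / 2 + 1 / (1 + δ)) := (Real.rpow_add hx0 _ _).symm
      _ ≤ x ^ (1 : ℝ) := by
          apply Real.rpow_le_rpow_of_exponent_le hx
          have h4 : δ / 2 ≤ δ / (1 + δ) := by
            apply div_le_div_of_nonneg_left hδ.le (by linarith) (by linarith)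
          have h5 : δ / (1 + δ) + 1 / (1 + δ) = 1 := by
            rw [← add_div, add_comm, div_self (by linarith)]
          linarith
      _ = x := Real.rpow_one x
  have h4 : x ^ 4 ≤ (1 + x / Real.sqrt X) ^ B := by
    calc x ^ 4 ≤ (x ^ (δ / 2)) ^ B := by
          rw [← Real.rpow_natCast (x ^ (δ / 2)) B, ← Real.rpow_mul hx0.le, ← Real.rpow_natCast x 4]
          apply Real.rpow_le_rpow_of_exponent_le hx
          have : 8 ≤ δ * B := by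
            rw [div_le_iff₀ hδ] at hB
            linarith
          push_cast
          linarith
      _ ≤ (1 + x / Real.sqrt X) ^ B := by
          refine pow_le_pow_left₀ (Real.rpow_nonneg hx0.le _) ?_ B
          linarith
  have h5 : 0 < (1 + x / Real.sqrt X) ^ B := by positivity
  unfold wB
  rw [inv_mul_le_iff₀ h5, mul_one]
  exact h4

theorem pf_MOT (hMOS : T_MOS) (hSM2 : T_SM2) (hSPT : T_SPT) (hCMX : T_CMX) : T_MOT := by
  intro k _ _ _ ε hε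
  obtain ⟨κ1, hκ10, hκ11, δ, hδ0, hδ1, C1, j1, hC1, h1⟩ := hMOS k ε hε
  obtain ⟨κ2, hκ20, hκ21, C2, j2, hC2, h2⟩ := hSM2 k ε hε
  obtain ⟨C3, hC3, h3⟩ := hSPT (2 * dg k)
  set B := ⌈8 / δ⌉₊ with hB
  have hBd : 8 / δ ≤ (B : ℝ) := Nat.le_ceil _
  refine ⟨min κ1 κ2, lt_min hκ10 hκ20, (min_le_left _ _).trans hκ11, B, C1 + C3 ^ 2 * C2,
    j1 + j2, by positivity, ?_⟩
  intro s X x ι S K _ _ _ F hs hX hx hF
  have hs1 : |s.re - 1 / 2| ≤ κ1 := hs.trans (min_le_left _ _)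
  have hs2 : |s.re - 1 / 2| ≤ κ2 := hs.trans (min_le_right _ _)
  set T := 1 + |s.im| with hT
  have hT1 : 1 ≤ T := by
    have := abs_nonneg s.im
    linarith
  have hX0 : 0 < X := by linarith
  have hx0 : 0 < x := by linarith
  have hP : 0 ≤ X ^ (3 / 2 + ε) := Real.rpow_nonneg hX0.le _
  have hQ : 1 ≤ x ^ (1 + ε) := Real.one_le_rpow hx (by linarith)
  have hnn : 0 ≤ ∑ i ∈ S, ∑ ψ : CC (K i), ‖Sp ψ x‖ ^ 2 * ‖F i ψ s‖ ^ 2 :=
    Finset.sum_nonneg (fun i _ => Finset.sum_nonneg (fun ψ _ => by positivity))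
  have hpow1 : T ^ j1 ≤ T ^ (j1 + j2) := pow_le_pow_right₀ hT1 (by omega)
  have hpow2 : T ^ j2 ≤ T ^ (j1 + j2) := pow_le_pow_right₀ hT1 (by omega)
  have hT0 : 0 < T := by linarith
  by_cases hcase : x ≤ X ^ ((1 + δ) / 2)
  · have b1 := h1 s X x ι S K F hs1 hX hx hcase hF
    calc (∑ i ∈ S, ∑ ψ : CC (K i), ‖Sp ψ x‖ ^ 2 * ‖F i ψ s‖ ^ 2) * wB B X x
        ≤ (∑ i ∈ S, ∑ ψ : CC (K i), ‖Sp ψ x‖ ^ 2 * ‖F i ψ s‖ ^ 2) * 1 :=
          mul_le_mul_of_nonneg_left (wB_le_one B X x hx0.le) hnn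
      _ ≤ C1 * T ^ j1 * X ^ (3 / 2 + ε) * x ^ (1 + ε) := by
          rw [mul_one]
          exact b1
      _ ≤ (C1 + C3 ^ 2 * C2) * T ^ (j1 + j2) * X ^ (3 / 2 + ε) * x ^ (1 + ε) := by
          have : C1 ≤ C1 + C3 ^ 2 * C2 := by
            have : 0 ≤ C3 ^ 2 * C2 := by positivity
            linarith
          gcongr
  · have hxX : X ^ ((1 + δ) / 2) < x := not_le.mp hcase
    have b2 := h2 s X ι S K F hs2 hX hF
    have b3 : ∑ i ∈ S, ∑ ψ : CC (K i), ‖Sp ψ x‖ ^ 2 * ‖F i ψ s‖ ^ 2 ≤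
        (C3 * x ^ 2) ^ 2 * ∑ i ∈ S, ∑ ψ : CC (K i), ‖F i ψ s‖ ^ 2 := by
      rw [Finset.mul_sum]
      refine Finset.sum_le_sum fun i hi => ?_
      rw [Finset.mul_sum]
      refine Finset.sum_le_sum fun ψ _ => ?_
      have hcx := hCMX.1 k (K i) (hF.cm i hi)
      have a1 := (h3 (K i) hcx.rk ψ).2 x hx
      have a2 : ‖Sp ψ x‖ ^ 2 ≤ (C3 * x ^ 2) ^ 2 := pow_le_pow_left₀ (norm_nonneg _) a1 2
      exact mul_le_mul_of_nonneg_right a2 (by positivity)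
    have b4 := wB_small δ X x hδ0 hδ1 hX hx hxX B hBd
    have hw := wB_nonneg B X x hx0.le
    calc (∑ i ∈ S, ∑ ψ : CC (K i), ‖Sp ψ x‖ ^ 2 * ‖F i ψ s‖ ^ 2) * wB B X x
        ≤ ((C3 * x ^ 2) ^ 2 * ∑ i ∈ S, ∑ ψ : CC (K i), ‖F i ψ s‖ ^ 2) * wB B X x :=
          mul_le_mul_of_nonneg_right b3 hw
      _ ≤ ((C3 * x ^ 2) ^ 2 * (C2 * T ^ j2 * X ^ (3 / 2 + ε))) * wB B X x := by
          refine mul_le_mul_of_nonneg_right ?_ hw
          exact mul_le_mul_of_nonneg_left b2 (by positivity)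
      _ = C3 ^ 2 * C2 * T ^ j2 * X ^ (3 / 2 + ε) * (wB B X x * x ^ 4) := by ring
      _ ≤ C3 ^ 2 * C2 * T ^ j2 * X ^ (3 / 2 + ε) * 1 := by
          refine mul_le_mul_of_nonneg_left b4 (by positivity)
      _ ≤ (C1 + C3 ^ 2 * C2) * T ^ (j1 + j2) * X ^ (3 / 2 + ε) * x ^ (1 + ε) := by
          have : C3 ^ 2 * C2 ≤ C1 + C3 ^ 2 * C2 := by linarith
          gcongr

end Pool.Agent.H58.CM4
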