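import Pool.Agent.H95.CM.Targets

/-!
# HBD: the class number is at most the square root of the discriminant, up to epsilon
-/

set_option autoImplicit false

open MeasureTheory Set Filter NumberField
open scoped Real nonZeroDivisors

namespace Pool.Agent.H58.CM4

open Pool.Agent.H65.CM4
open Pool.Agent.H95.CM
open Pool.Agent.H31.CN (IsLf)
open Pool.Agent.H61.FM (CC pv)

/-- the class number is at most the number of the ideals of small norm -/
theorem hbd_sum (K : Type) [Field K] [NumberField K] (M : ℝ)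
    (h : ∀ c : ClassGroup (𝓞 K), ∃ I : (Ideal (𝓞 K))⁰, ClassGroup.mk0 I = c ∧
      (Ideal.absNorm (I : Ideal (𝓞 K)) : ℝ) ≤ M) :
    (Fintype.card (ClassGroup (𝓞 K)) : ℝ) ≤
      ∑ m ∈ Finset.Icc 1 ⌊M⌋₊, ({J : Ideal (𝓞 K) | Ideal.absNorm J = m}.ncard : ℝ) := by
  classical
  choose f hf using h
  have hfin : ∀ m : ℕ, {J : Ideal (𝓞 K) | Ideal.absNorm J = m}.Finite := fun m =>
    Ideal.finite_setOfPred_absNorm_eq (S := 𝓞 K) m
  have h1 : (Finset.univ : Finset (ClassGroup (𝓞 K))).card ≤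
      ((Finset.Icc 1 ⌊M⌋₊).biUnion (fun m => (hfin m).toFinset)).card := by
    refine Finset.card_le_card_of_injOn (fun c => ((f c : (Ideal (𝓞 K))⁰) : Ideal (𝓞 K))) ?_ ?_
    · intro c _
      rw [Finset.mem_coe, Finset.mem_biUnion]
      refine ⟨Ideal.absNorm ((f c : (Ideal (𝓞 K))⁰) : Ideal (𝓞 K)), ?_, ?_⟩
      · rw [Finset.mem_Icc]
        refine ⟨?_, Nat.le_floor (hf c).2⟩
        have hne : ((f c : (Ideal (𝓞 K))⁰) : Ideal (𝓞 K)) ≠ ⊥ :=
          nonZeroDivisors.coe_ne_zero (f c)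
        have := Ideal.absNorm_ne_zero_iff_mem_nonZeroDivisors.mpr (f c).2
        omega
      · rw [Set.Finite.mem_toFinset]
        rfl
    · intro c _ c' _ e
      have e' : f c = f c' := Subtype.ext e
      rw [← (hf c).1, ← (hf c').1, e']
  have h2 := h1.trans Finset.card_biUnion_le
  rw [Finset.card_univ] at h2
  have h3 : ∀ m, ((hfin m).toFinset.card : ℝ) =
      ({J : Ideal (𝓞 K) | Ideal.absNorm J = m}.ncard : ℝ) := fun m => by
    rw [Set.ncard_eq_toFinset_card _ (hfin m)]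
  calc (Fintype.card (ClassGroup (𝓞 K)) : ℝ)
      ≤ ((∑ m ∈ Finset.Icc 1 ⌊M⌋₊, (hfin m).toFinset.card : ℕ) : ℝ) := by exact_mod_cast h2
    _ = ∑ m ∈ Finset.Icc 1 ⌊M⌋₊, ({J : Ideal (𝓞 K) | Ideal.absNorm J = m}.ncard : ℝ) := by
        push_cast
        exact Finset.sum_congr rfl fun m _ => h3 m

theorem hbd_pow (M C δ : ℝ) (hC : 0 < C) (hδ : 0 < δ) (a : ℕ → ℝ)
    (ha : ∀ m : ℕ, 1 ≤ m → a m ≤ C * (m : ℝ) ^ δ) (hM : 0 ≤ M) :
    ∑ m ∈ Finset.Icc 1 ⌊M⌋₊, a m ≤ C * M ^ (1 + δ) := by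
  have h1 : ∀ m ∈ Finset.Icc 1 ⌊M⌋₊, a m ≤ C * M ^ δ := by
    intro m hm
    rw [Finset.mem_Icc] at hm
    refine (ha m hm.1).trans ?_
    have hmM : (m : ℝ) ≤ M := (Nat.cast_le.2 hm.2).trans (Nat.floor_le hM)
    exact mul_le_mul_of_nonneg_left (Real.rpow_le_rpow (Nat.cast_nonneg _) hmM hδ.le) hC.le
  have h2 := Finset.sum_le_card_nsmul _ _ _ h1
  rw [Nat.card_Icc, nsmul_eq_mul] at h2
  refine h2.trans ?_
  have h3 : ((⌊M⌋₊ + 1 - 1 : ℕ) : ℝ) ≤ M := by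
    rw [Nat.add_sub_cancel]
    exact Nat.floor_le hM
  rcases hM.eq_or_lt with h0 | h0
  · rw [← h0] at h3 ⊢
    rw [Real.zero_rpow hδ.ne', Real.zero_rpow (show (1 + δ : ℝ) ≠ 0 by positivity)]
    simp
  · calc ((⌊M⌋₊ + 1 - 1 : ℕ) : ℝ) * (C * M ^ δ) ≤ M * (C * M ^ δ) :=
          mul_le_mul_of_nonneg_right h3 (by positivity)
      _ = C * M ^ (1 + δ) := by
          rw [Real.rpow_add h0, Real.rpow_one]
          ring

theorem hbd_cl (hNRI : T_NRI) (n : ℕ) (ε : ℝ) (hε : 0 < ε) :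
    ∃ C : ℝ, 0 < C ∧ ∀ (K : Type) [Field K] [NumberField K], Module.finrank ℚ K = n →
      (Fintype.card (ClassGroup (𝓞 K)) : ℝ) ≤ C * |(discr K : ℝ)| ^ (1 / 2 + ε) := by
  obtain ⟨C, hC, h⟩ := hNRI n ε hε
  set G : ℝ := (4 / π) ^ n with hG
  have hG0 : 0 < G := by positivity
  have hπ1 : 1 ≤ 4 / π := by
    rw [le_div_iff₀ Real.pi_pos]
    linarith [Real.pi_lt_four]
  refine ⟨C * G ^ (1 + ε), by positivity, fun K _ _ hn => ?_⟩
  set d : ℝ := |(discr K : ℝ)| with hd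
  have hd1 : 1 ≤ d := by
    have h0 : discr K ≠ 0 := discr_ne_zero K
    have h1 : (1 : ℤ) ≤ |discr K| := Int.one_le_abs h0
    rw [hd, ← Int.cast_abs]
    exact_mod_cast h1
  have hd0 : 0 < d := by linarith
  have hM : ∀ c : ClassGroup (𝓞 K), ∃ I : (Ideal (𝓞 K))⁰, ClassGroup.mk0 I = c ∧
      (Ideal.absNorm (I : Ideal (𝓞 K)) : ℝ) ≤ G * Real.sqrt d := by
    intro c
    obtain ⟨I, hI, hI2⟩ := exists_ideal_in_class_of_norm_le (K := K) c
    refine ⟨I, hI, hI2.trans ?_⟩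
    rw [hn]
    have e1 : (4 / π) ^ InfinitePlace.nrComplexPlaces K ≤ G := by
      rw [hG]
      refine pow_le_pow_right₀ hπ1 ?_
      have := InfinitePlace.card_add_two_mul_card_eq_rank K
      rw [hn] at this
      omega
    have e2 : ((n.factorial : ℝ) / (n : ℝ) ^ n) ≤ 1 := by
      rcases Nat.eq_zero_or_pos n with h0 | h0
      · rw [h0]; simp
      · rw [div_le_one (by positivity)]
        exact_mod_cast Nat.factorial_le_pow n
    have e3 : (0 : ℝ) ≤ (n.factorial : ℝ) / (n : ℝ) ^ n := by positivity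
    have e4 : 0 ≤ Real.sqrt d := Real.sqrt_nonneg _
    calc (4 / π) ^ InfinitePlace.nrComplexPlaces K *
          ((n.factorial : ℝ) / (n : ℝ) ^ n * Real.sqrt |(discr K : ℝ)|)
        ≤ G * (1 * Real.sqrt d) := by
          refine mul_le_mul e1 ?_ (by positivity) hG0.le
          exact mul_le_mul_of_nonneg_right e2 e4
      _ = G * Real.sqrt d := by ring
  have h1 := hbd_sum K (G * Real.sqrt d) hM
  refine h1.trans ?_
  have h2 := hbd_pow (G * Real.sqrt d) C ε hC hε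
    (fun m => ({J : Ideal (𝓞 K) | Ideal.absNorm J = m}.ncard : ℝ)) (fun m hm => h K hn m hm)
    (by positivity)
  refine h2.trans ?_
  have e5 : (G * Real.sqrt d) ^ (1 + ε) = G ^ (1 + ε) * d ^ ((1 + ε) / 2) := by
    rw [Real.mul_rpow hG0.le (Real.sqrt_nonneg _), Real.sqrt_eq_rpow, ← Real.rpow_mul hd0.le]
    ring_nf
  rw [e5]
  have e6 : d ^ ((1 + ε) / 2) ≤ d ^ (1 / 2 + ε) :=
    Real.rpow_le_rpow_of_exponent_le hd1 (by linarith)
  calc C * (G ^ (1 + ε) * d ^ ((1 + ε) / 2)) = C * G ^ (1 + ε) * d ^ ((1 + ε) / 2) := by ring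
    _ ≤ C * G ^ (1 + ε) * d ^ (1 / 2 + ε) := mul_le_mul_of_nonneg_left e6 (by positivity)

theorem pf_HBD (hNRI : T_NRI) : T_HBD := by
  intro n ε hε
  obtain ⟨C, hC, h⟩ := hbd_cl hNRI n ε hε
  refine ⟨C, hC, fun K _ _ hn => ?_⟩
  have h1 := h K hn
  refine ⟨h1, ?_⟩
  have hcc : Fintype.card (CC K) = Fintype.card (ClassGroup (𝓞 K)) := by
    have := CommGroup.card_monoidHom_of_hasEnoughRootsOfUnity (ClassGroup (𝓞 K)) ℂ
    rwa [Nat.card_eq_fintype_card, Nat.card_eq_fintype_card] at this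
  rw [hcc]
  exact h1

end Pool.Agent.H58.CM4
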