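import Pool.Agent.H89.CM4.Targets2

/-!
# KMN: the minimum of the multiples of an ideal
-/

set_option autoImplicit false

open MeasureTheory Set Filter NumberField NumberField.InfinitePlace Pool.Agent.H65.CM4
  Pool.Agent.H89.CM4
open scoped Real

namespace Pool.Agent.H58.CM4

variable (k : Type) [Field k] [NumberField k] [IsTotallyReal k]

variable {k} in
theorem nn_smul (r : ℝ) (a : 𝓞 k) (u : V2 k) : nn r (a • u) = Nr (a : k) ^ 2 * nn r u := by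
  unfold nn Nr
  rw [← Finset.prod_pow, ← Finset.prod_mul_distrib]
  refine Finset.prod_congr rfl fun v _ => ?_
  unfold nr
  have h1 : ((a • u).1 : k) = (a : k) * (u.1 : k) := by
    simp [Prod.smul_fst, smul_eq_mul]
  have h2 : ((a • u).2 : k) = (a : k) * (u.2 : k) := by
    simp [Prod.smul_snd, smul_eq_mul]
  rw [h1, h2, map_mul, map_mul, sq_abs]
  ring

variable {k} in
theorem Nr_nat (c : ℕ) : Nr (((c : 𝓞 k) : k)) = (c : ℝ) ^ Fintype.card (Pl k) := by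
  unfold Nr
  have h : ∀ v : Pl k, |rv v ((c : 𝓞 k) : k)| = (c : ℝ) := by
    intro v
    have : rv v ((c : 𝓞 k) : k) = (c : ℝ) := by simp
    rw [this]
    exact abs_of_nonneg (Nat.cast_nonneg c)
  rw [Finset.prod_congr rfl fun v _ => h v, Finset.prod_const, Finset.card_univ]

theorem pf_KMN (hEMB : T_EMB k) (hMKI : T_MKI k) (hMIN : T_MIN k) (hFLS : T_FLS k)
    (hIXC : T_IXC k) (hNRD : T_NRD k) : T_KMN k := by
  classical
  obtain ⟨hcard, hdg, _, _, _, hNmul, hN0, _, hspan, hN1, hid, _⟩ := hEMB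
  obtain ⟨C, hC1, hMK⟩ := hMKI
  obtain ⟨_, _, hmin⟩ := hMIN
  refine ⟨C ^ (2 * dg k), one_le_pow₀ hC1, ?_⟩
  intro b M I J L r hb hM hI hJ hIJ hL hr
  obtain ⟨hix, _, hix2⟩ := hIXC b M hb hM
  obtain ⟨_, hixN⟩ := hix2 I J L hI hJ hIJ hL
  have hnz : ∀ A : Ideal (𝓞 k), A ≠ ⊥ → Ideal.absNorm A ≠ 0 := fun A hA =>
    Ideal.absNorm_eq_zero_iff.not.mpr hA
  have hN : ix (M ⊓ L ⊓ kO J) ≠ 0 := by
    rw [hixN]
    exact mul_ne_zero (mul_ne_zero hix.ne' (hnz I hI.ne)) (pow_ne_zero 2 (hnz J hJ.ne))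
  obtain ⟨u, hu, hu0, hun, _, _⟩ := hmin r _ hr hN
  obtain ⟨⟨_, huL⟩, huJ⟩ := hu
  obtain ⟨kp, hkJ, hk0, hkN⟩ := hMK J hJ.ne
  obtain ⟨J', hJ'⟩ : J ∣ Ideal.span {kp} :=
    Ideal.dvd_iff_le.mpr ((Ideal.span_singleton_le_iff_mem J).mpr hkJ)
  have hsp : nm (Ideal.span {kp}) = nm J * nm J' := by
    unfold nm
    rw [hJ', map_mul]
    push_cast
    rfl
  have hJ'0 : J' ≠ ⊥ := by
    intro h
    rw [h, Ideal.mul_bot, Ideal.span_singleton_eq_bot] at hJ'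
    exact hk0 hJ'
  have hJ1 := (hid J hJ.ne).1
  have hJ'1 := (hid J' hJ'0).1
  set c : ℕ := Ideal.absNorm J' with hc
  have hcr : (c : ℝ) = nm J' := rfl
  have hcC : (c : ℝ) ≤ C := by
    rw [hcr]
    rw [← hspan kp, hsp, mul_comm C] at hkN
    exact le_of_mul_le_mul_left hkN (by linarith)
  have hcJ' : (c : 𝓞 k) ∈ J' := Ideal.absNorm_mem J'
  have hc0 : (c : 𝓞 k) ≠ 0 := by
    have : c ≠ 0 := hnz J' hJ'0
    exact_mod_cast this
  have hmul : ∀ x ∈ J, ∃ w : 𝓞 k, (c : 𝓞 k) * x = kp * w := by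
    intro x hx
    have h1 : (c : 𝓞 k) * x ∈ Ideal.span {kp} := by
      rw [hJ', mul_comm]
      exact Ideal.mul_mem_mul hcJ' hx
    obtain ⟨w, hw⟩ := Ideal.mem_span_singleton'.1 h1
    exact ⟨w, by rw [← hw, mul_comm]⟩
  obtain ⟨w1, hw1⟩ := hmul u.1 huJ.1
  obtain ⟨w2, hw2⟩ := hmul u.2 huJ.2
  have hcu : (c : 𝓞 k) • u = kp • ((w1, w2) : V2 k) := by
    refine Prod.ext ?_ ?_
    · simpa [Prod.smul_fst, smul_eq_mul] using hw1
    · simpa [Prod.smul_snd, smul_eq_mul] using hw2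
  set w : V2 k := (w1, w2) with hw
  have hsmul0 : ∀ (a : 𝓞 k) (z : V2 k), a ≠ 0 → a • z = 0 → z = 0 := by
    intro a z ha hz
    have h1 : a * z.1 = 0 := congrArg Prod.fst hz
    have h2 : a * z.2 = 0 := congrArg Prod.snd hz
    refine Prod.ext ?_ ?_
    · exact (mul_eq_zero.1 h1).resolve_left ha
    · exact (mul_eq_zero.1 h2).resolve_left ha
  have hw0 : w ≠ 0 := by
    intro h
    rw [h, smul_zero] at hcu
    exact hu0 (hsmul0 _ _ hc0 hcu)
  have hwL : w ∈ L := by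
    have h1 : (1 : 𝓞 k) ∈ I ⊔ J := by rw [hIJ]; trivial
    obtain ⟨i, hi, j, hj, hij⟩ := Submodule.mem_sup.1 h1
    have h2 : w = i • w + j • w := by rw [← add_smul, hij, one_smul]
    rw [h2]
    refine L.add_mem (((hFLS I L hI.ne).2 hL).1 i hi w) ?_
    obtain ⟨d, hd⟩ := hmul j hj
    have h3 : j • w = d • u := by
      have h4 : kp • (j • w - d • u) = 0 := by
        rw [smul_sub, smul_comm kp j w, ← hcu, smul_smul, smul_smul, ← hd, mul_comm j, sub_self]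
      exact sub_eq_zero.1 (hsmul0 _ _ hk0 h4)
    rw [h3]
    exact L.smul_mem d huL
  have hnn : ∀ z : V2 k, z ≠ 0 → 0 < nn r z := fun z hz => ((hNRD r z z hr).2.1 hz).1
  have hle : mn r L ≤ nn r w := by
    unfold mn
    refine csInf_le ⟨0, ?_⟩ ⟨w, ⟨hwL, hw0⟩, rfl⟩
    rintro _ ⟨z, ⟨_, hz⟩, rfl⟩
    exact (hnn z hz).le
  have hkey : Nr (kp : k) ^ 2 * nn r w = ((c : ℝ) ^ dg k) ^ 2 * nn r u := by
    rw [← nn_smul, ← hcu, nn_smul, Nr_nat, hcard]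
  have hJk : nm J ≤ Nr (kp : k) := by
    rw [← hspan kp, hsp]
    nlinarith
  have hnw := (hnn w hw0).le
  calc nm J ^ 2 * mn r L ≤ nm J ^ 2 * nn r w := mul_le_mul_of_nonneg_left hle (by positivity)
    _ ≤ Nr (kp : k) ^ 2 * nn r w := by
        refine mul_le_mul_of_nonneg_right ?_ hnw
        exact pow_le_pow_left₀ (by linarith) hJk 2
    _ = ((c : ℝ) ^ dg k) ^ 2 * nn r u := hkey
    _ ≤ (C ^ dg k) ^ 2 * nn r u := by
        refine mul_le_mul_of_nonneg_right ?_ (hnn u hu0).le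
        exact pow_le_pow_left₀ (by positivity) (pow_le_pow_left₀ (Nat.cast_nonneg c) hcC _) 2
    _ = C ^ (2 * dg k) * mn r (M ⊓ L ⊓ kO J) := by
        rw [hun, ← pow_mul, mul_comm (dg k) 2]

end Pool.Agent.H58.CM4
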